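import Pool.Agent.Helper69.ES.Easy
import Pool.Agent.Helper22.SI.Z2

/-!
# ES, block Z2: transfer and swap on unions of cells
-/

open MeasureTheory Set Filter Topology
open Pool.Agent.Helper57.Zeta Pool.Agent.Helper57.PC Pool.Agent.Helper57.LH Pool.Agent.Helper78.SG
open Pool.Agent.Helper4.SH Pool.Agent.Helper69.PP Pool.Agent.Helper22.SI
open Pool.Agent.Helper69.SM (wt)
open scoped Interval

namespace Pool.Agent.Helper54.ES

open Pool.Agent.Helper69 Pool.Agent.Helper69.ES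

theorem IS_sub {c K D x : ℝ} (hx : 1 < x) (hD : 0 ≤ D) {J : Finset ℕ} (hcl : Clear c K x J) :
    IS K D x J ⊆ SM.SI.IZJ c x x := by
  classical
  have hL : 0 < Real.log x := Real.log_pos hx
  have hD0 : 0 ≤ D / Real.log x := div_nonneg hD hL.le
  intro ρ hρ
  unfold IS at hρ
  rw [Finset.mem_filter] at hρ
  rw [SM.SI.mem_IZJ]
  refine ⟨hρ.1, ?_⟩
  have h := hρ.2
  unfold St at h
  rw [mem_iUnion₂] at h
  obtain ⟨j, hj, h1, h2⟩ := h
  exact hcl j hj ρ (by linarith) (by linarith)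

theorem IS_mem {K D x : ℝ} {J : Finset ℕ} {ρ : ZS} (h : ρ ∈ IS K D x J) : (ρ : ℂ).im ∈ St K D x J := by
  classical
  unfold IS at h
  rw [Finset.mem_filter] at h
  exact h.2

theorem Zc_cont (f : TF) (K D x : ℝ) (J : Finset ℕ) : Continuous (fun t => Zc f.h K D x J t) := by
  unfold Zc
  exact continuous_finsetSum _ fun ρ _ => (krs_cont f 2 x).comp (continuous_id.sub continuous_const)

theorem St_int {K D x : ℝ} {J : Finset ℕ} {G : ℝ → ℝ} (hG : Continuous G) : IntegrableOn G (St K D x J) := by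
  unfold St
  rw [integrableOn_finset_iUnion]
  exact fun j _ => hG.integrableOn_Icc

/-- the swap: outside the weight nothing is left -/
theorem swap_cells {c : ℝ} (hc : 0 < c) (g f : TF) (hg : GoodG g) (F : ℝ → ℝ → ℝ) (hFc : ∀ x, Continuous (F x))
    (hFb : Crude F) {ε : ℝ} (hε : 0 < ε) : ∀ᶠ x : ℝ in atTop, ∀ K D : ℝ, 0 ≤ K → 0 ≤ D → ∀ J : Finset ℕ,
      InW K x J → Clear c K x J →
      |(∑ ρ ∈ IS K D x J, ∫ t, F x t * krs f.h 2 x (t - (ρ : ℂ).im)) -
        ∫ t, wt g.h x x t * (F x t * Zc f.h K D x J t)| ≤ ε * x := by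
  obtain ⟨κ, C0, hC0, hκ, hF⟩ := hFb
  obtain ⟨K, hK, hlip⟩ := SM.wt_lip g
  obtain ⟨C, hC, hmom⟩ := SM.loc_moment f (s := 2) (by norm_num)
  have hg1 := hg.1
  have hwev : ∀ᶠ x : ℝ in atTop, Real.pi * c ≤ Real.log x := Real.tendsto_log_atTop.eventually_ge_atTop _
  filter_upwards [SM.pow_ev2 (3 / (2 * Real.pi * c) * (C0 * K * C)) hκ hε, eventually_ge_atTop (Real.exp 1), hF, hwev]
    with x hT hTe hFA0 hwl
  have hT1 : 1 < x := lt_of_lt_of_le (by simp) hTe
  have hT0 : 0 < x := by linarith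
  have hL1 : 1 ≤ Real.log x := by
    rw [← Real.log_exp 1]
    exact Real.log_le_log (Real.exp_pos 1) hTe
  intro K1 D hK1 hD J hJ hcl
  have hw1 : SM.hw c x ≤ 1 := by unfold SM.hw; rwa [div_le_one (by linarith)]
  have hcard := SM.SI.card_IZJ hc hT1 hT0.le hw1
  have hsub := IS_sub hT1 hD hcl
  have hcard' : ((IS K1 D x J).card : ℝ) ≤ ((SM.SI.IZJ c x x).card : ℝ) := by
    exact_mod_cast Finset.card_le_card hsub
  set A := C0 * x ^ κ with hA
  have hFA : ∀ t, |F x t| ≤ A := hFA0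
  have hA0 : 0 ≤ A := (abs_nonneg _).trans (hFA 0)
  have hkc : ∀ γ : ℝ, Continuous (fun t => krs f.h 2 x (t - γ)) := fun γ =>
    (krs_cont f 2 x).comp (continuous_id.sub continuous_const)
  have hki : ∀ γ : ℝ, Integrable (fun t => krs f.h 2 x (t - γ)) := fun γ =>
    (krs_integrable f (by norm_num) hT1).comp_sub_right γ
  have hi1 : ∀ γ : ℝ, Integrable (fun t => F x t * krs f.h 2 x (t - γ)) := by
    intro γ
    refine ((hki γ).abs.const_mul A).mono' ((hFc x).mul (hkc γ)).aestronglyMeasurable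
      (Eventually.of_forall fun t => ?_)
    rw [Real.norm_eq_abs, abs_mul]
    exact mul_le_mul_of_nonneg_right (hFA t) (abs_nonneg _)
  have hi2 : ∀ γ : ℝ, Integrable (fun t => wt g.h x x t * (F x t * krs f.h 2 x (t - γ))) := by
    intro γ
    exact SM.wt_mul_integrable g hg1 hT0 ((hFc x).mul (hkc γ))
  have e1 : ∫ t, wt g.h x x t * (F x t * Zc f.h K1 D x J t) =
      ∑ ρ ∈ IS K1 D x J, ∫ t, wt g.h x x t * (F x t * krs f.h 2 x (t - (ρ : ℂ).im)) := by
    rw [← integral_finsetSum _ (fun ρ _ => hi2 _)]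
    congr 1
    ext t
    unfold Zc
    rw [Finset.mul_sum, Finset.mul_sum]
  have hone : ∀ γ : ℝ, wt g.h x x γ = 1 → |(∫ t, F x t * krs f.h 2 x (t - γ)) -
      ∫ t, wt g.h x x t * (F x t * krs f.h 2 x (t - γ))| ≤ A * (K / x) * (C / Real.log x ^ 2) := by
    intro γ hγ
    rw [← integral_sub (hi1 γ) (hi2 γ)]
    have hm := hmom x hT1 γ
    calc |∫ t, (F x t * krs f.h 2 x (t - γ) - wt g.h x x t * (F x t * krs f.h 2 x (t - γ)))|
        ≤ ∫ t, |F x t * krs f.h 2 x (t - γ) - wt g.h x x t * (F x t * krs f.h 2 x (t - γ))| :=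
          abs_integral_le_integral_abs
      _ ≤ ∫ t, A * (K / x) * (|t - γ| * |krs f.h 2 x (t - γ)|) := by
          refine integral_mono ((hi1 γ).sub (hi2 γ)).abs (hm.1.const_mul _) fun t => ?_
          have e2 : F x t * krs f.h 2 x (t - γ) - wt g.h x x t * (F x t * krs f.h 2 x (t - γ)) =
              (wt g.h x x γ - wt g.h x x t) * F x t * krs f.h 2 x (t - γ) := by rw [hγ]; ring
          have e3 : |wt g.h x x γ - wt g.h x x t| ≤ K / x * |t - γ| := hlip x x hT0 γ t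
          simp only [e2, abs_mul]
          calc |wt g.h x x γ - wt g.h x x t| * |F x t| * |krs f.h 2 x (t - γ)|
              ≤ (K / x * |t - γ|) * A * |krs f.h 2 x (t - γ)| := by
                apply mul_le_mul_of_nonneg_right _ (abs_nonneg _)
                exact mul_le_mul e3 (hFA t) (abs_nonneg _) (by positivity)
            _ = A * (K / x) * (|t - γ| * |krs f.h 2 x (t - γ)|) := by ring
      _ = A * (K / x) * ∫ t, |t - γ| * |krs f.h 2 x (t - γ)| := integral_const_mul _ _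
      _ ≤ A * (K / x) * (C / Real.log x ^ 2) := mul_le_mul_of_nonneg_left hm.2 (by positivity)
  have hcard2 : ((IS K1 D x J).card : ℝ) ≤ 3 / (2 * Real.pi * c) * (x * Real.log x) := by
    refine hcard'.trans ?_
    unfold SM.hw at hcard
    have h1 : ((SM.SI.IZJ c x x).card : ℝ) * (2 * (Real.pi * c / Real.log x)) ≤ 3 * x := by linarith
    have h2 : ((SM.SI.IZJ c x x).card : ℝ) = ((SM.SI.IZJ c x x).card : ℝ) * (2 * (Real.pi * c / Real.log x)) *
        (Real.log x / (2 * Real.pi * c)) := by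
      field_simp
    rw [h2]
    calc ((SM.SI.IZJ c x x).card : ℝ) * (2 * (Real.pi * c / Real.log x)) * (Real.log x / (2 * Real.pi * c)) ≤
        3 * x * (Real.log x / (2 * Real.pi * c)) := by gcongr
      _ = _ := by ring
  have hw1' : ∀ ρ ∈ IS K1 D x J, wt g.h x x (ρ : ℂ).im = 1 := by
    intro ρ hρ
    exact wt_one hg hT0 (St_sub hT1 hK1 hD hJ (IS_mem hρ))
  rw [e1, ← Finset.sum_sub_distrib]
  calc |∑ ρ ∈ IS K1 D x J, ((∫ t, F x t * krs f.h 2 x (t - (ρ : ℂ).im)) -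
        ∫ t, wt g.h x x t * (F x t * krs f.h 2 x (t - (ρ : ℂ).im)))|
      ≤ ∑ ρ ∈ IS K1 D x J, |(∫ t, F x t * krs f.h 2 x (t - (ρ : ℂ).im)) -
        ∫ t, wt g.h x x t * (F x t * krs f.h 2 x (t - (ρ : ℂ).im))| := Finset.abs_sum_le_sum_abs _ _
    _ ≤ ∑ _ρ ∈ IS K1 D x J, A * (K / x) * (C / Real.log x ^ 2) :=
        Finset.sum_le_sum fun ρ hρ => hone _ (hw1' ρ hρ)
    _ = ((IS K1 D x J).card : ℝ) * (A * (K / x) * (C / Real.log x ^ 2)) := by rw [Finset.sum_const, nsmul_eq_mul]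
    _ ≤ (3 / (2 * Real.pi * c) * (x * Real.log x)) * (A * (K / x) * (C / Real.log x ^ 2)) :=
        mul_le_mul_of_nonneg_right hcard2 (by positivity)
    _ = (3 / (2 * Real.pi * c) * (A * K * C)) / Real.log x := by
        field_simp
    _ ≤ 3 / (2 * Real.pi * c) * (A * K * C) := div_le_self (by positivity) hL1
    _ = 3 / (2 * Real.pi * c) * (C0 * K * C) * x ^ κ := by rw [hA]; ring
    _ ≤ ε * x := by simpa using hT

/-- the transfer -/
theorem transfer_cells {c : ℝ} (hc : 0 < c) (g f : TF) (hg : GoodG g) (F : ℝ → ℝ → ℝ) (hFc : ∀ x, Continuous (F x))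
    (hui : UIW g (fun x t => |F x t| * (1 + |pss f.h 2 x t|)))
    (hZb : ∃ C : ℝ, 0 < C ∧ ∀ x : ℝ, 1 < x → ∀ K D : ℝ, 0 ≤ D → ∀ J : Finset ℕ,
      Clear c K x J → ∀ t : ℝ, |Zc f.h K D x J t| ≤ C)
    (hdev : ∀ {η ε : ℝ}, 0 < η → 0 < ε → ∃ D0 : ℝ, 0 < D0 ∧ ∀ D : ℝ, D0 ≤ D →
      ∃ K0 : ℝ, ∀ K : ℝ, K0 ≤ K → ∀ᶠ x : ℝ in atTop, ∀ J : Finset ℕ, InW K x J → Clear c K x J →
      ∃ B : Set ℝ, MeasurableSet B ∧ volume B ≤ ENNReal.ofReal (η * x) ∧
        ∀ t ∈ Icc (x + x / 4) (x + 3 * x / 4), t ∉ B →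
          |Zc f.h K D x J t - (St K 0 x J).indicator (fun t => f.h 0 - pss f.h 2 x t) t| ≤ ε)
    {ε : ℝ} (hε : 0 < ε) : ∃ D0 : ℝ, 0 < D0 ∧ ∀ D : ℝ, D0 ≤ D →
    ∃ K0 : ℝ, ∀ K : ℝ, K0 ≤ K → ∀ᶠ x : ℝ in atTop, ∀ J : Finset ℕ, InW K x J → Clear c K x J →
      |(∫ t, wt g.h x x t * (F x t * Zc f.h K D x J t)) -
        ∫ t in St K 0 x J, F x t * (f.h 0 - pss f.h 2 x t)| ≤ ε * x := by
  obtain ⟨⟨C, hC0, hC⟩, hui⟩ := hui
  obtain ⟨Z, hZ0, hZ⟩ := hZb
  obtain ⟨K', hK'⟩ : ∃ K' : ℝ, K' = Z + |f.h 0| + 1 := ⟨_, rfl⟩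
  have hf0 := abs_nonneg (f.h 0)
  have hK'0 : 0 < K' := by rw [hK']; positivity
  obtain ⟨η, hη0, hη⟩ := hui (ε / (2 * K')) (by positivity)
  obtain ⟨e, he0, he⟩ : ∃ e : ℝ, 0 < e ∧ e * C = ε / 2 := by
    refine ⟨ε / (2 * C), by positivity, ?_⟩
    field_simp
  obtain ⟨D0, hD0, h⟩ := hdev hη0 he0
  refine ⟨D0, hD0, fun D hD => ?_⟩
  obtain ⟨K0, h⟩ := h D hD
  refine ⟨max K0 0, fun K hK => ?_⟩
  have hKK : K0 ≤ K := (le_max_left _ _).trans hK
  have hK0 : 0 ≤ K := (le_max_right _ _).trans hK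
  filter_upwards [hC, hη, h K hKK, eventually_gt_atTop 1] with x h1 h2 h3 hT J hJ hcl
  have hT0 : 0 < x := by linarith
  obtain ⟨B, hBm, hBv, hB⟩ := h3 J hJ hcl
  have hX := h2 B hBm hBv
  have hg0 := hg.2.1
  have hg1 := hg.1
  have hom0 : ∀ t, 0 ≤ wt g.h x x t := fun t => hg0 _
  have hpc := pss_cont f.h 2 x
  have hWc : Continuous (fun t => |F x t| * (1 + |pss f.h 2 x t|)) :=
    (hFc x).abs.mul (continuous_const.add hpc.abs)
  have hWe : ∀ t, wt g.h x x t * |(|F x t| * (1 + |pss f.h 2 x t|))| = wt g.h x x t * (|F x t| * (1 + |pss f.h 2 x t|)) := by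
    intro t
    rw [abs_of_nonneg (by positivity)]
  simp only [hWe] at h1 hX
  obtain ⟨S, hSe⟩ : ∃ S : Set ℝ, S = St K 0 x J := ⟨_, rfl⟩
  have hSm : MeasurableSet S := by rw [hSe]; exact St_meas _ _ _ _
  have hSw : ∀ t ∈ S, wt g.h x x t = 1 := by
    intro t ht
    rw [hSe] at ht
    exact wt_one hg hT0 (St_sub hT hK0 le_rfl hJ ht)
  have i1 : Integrable (fun t => wt g.h x x t * (|F x t| * (1 + |pss f.h 2 x t|))) := SM.wt_mul_integrable g hg1 hT0 hWc
  have i2 : Integrable (fun t => wt g.h x x t * (F x t * Zc f.h K D x J t)) :=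
    SM.wt_mul_integrable g hg1 hT0 ((hFc x).mul (Zc_cont f K D x J))
  have i3 : Integrable (fun t => wt g.h x x t * (F x t * (f.h 0 - pss f.h 2 x t))) :=
    SM.wt_mul_integrable g hg1 hT0 ((hFc x).mul (continuous_const.sub hpc))
  have e0 : ∫ t in S, F x t * (f.h 0 - pss f.h 2 x t) =
      ∫ t, S.indicator (fun t => wt g.h x x t * (F x t * (f.h 0 - pss f.h 2 x t))) t := by
    rw [integral_indicator hSm]
    refine setIntegral_congr_fun hSm fun t ht => ?_
    simp only [hSw t ht, one_mul]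
  have i4 : Integrable (S.indicator (fun t => wt g.h x x t * (F x t * (f.h 0 - pss f.h 2 x t)))) := i3.indicator hSm
  have hpt : ∀ t, ‖wt g.h x x t * (F x t * Zc f.h K D x J t) -
        S.indicator (fun t => wt g.h x x t * (F x t * (f.h 0 - pss f.h 2 x t))) t‖ ≤
      e * (wt g.h x x t * (|F x t| * (1 + |pss f.h 2 x t|))) +
      K' * B.indicator (fun t => wt g.h x x t * (|F x t| * (1 + |pss f.h 2 x t|))) t := by
    intro t
    have h0 := hom0 t
    have hF0 := abs_nonneg (F x t)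
    have hp0 := abs_nonneg (pss f.h 2 x t)
    have hW0 : 0 ≤ wt g.h x x t * (|F x t| * (1 + |pss f.h 2 x t|)) := by positivity
    have hI0 : 0 ≤ B.indicator (fun t => wt g.h x x t * (|F x t| * (1 + |pss f.h 2 x t|))) t :=
      indicator_nonneg (fun y _ => mul_nonneg (hom0 y) (by positivity)) t
    have e3 : wt g.h x x t * (F x t * Zc f.h K D x J t) -
        S.indicator (fun t => wt g.h x x t * (F x t * (f.h 0 - pss f.h 2 x t))) t =
        wt g.h x x t * (F x t * (Zc f.h K D x J t - S.indicator (fun t => f.h 0 - pss f.h 2 x t) t)) := by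
      by_cases hS : t ∈ S
      · rw [indicator_of_mem hS, indicator_of_mem hS]
        ring
      · rw [indicator_of_notMem hS, indicator_of_notMem hS]
        ring
    rw [e3, norm_mul, norm_mul, Real.norm_eq_abs, Real.norm_eq_abs, Real.norm_eq_abs, abs_of_nonneg h0]
    by_cases hz : wt g.h x x t = 0
    · rw [hz, zero_mul]
      rw [hz] at hW0
      have h5 : 0 ≤ e * (0 * (|F x t| * (1 + |pss f.h 2 x t|))) := by rw [zero_mul, mul_zero]
      nlinarith [mul_nonneg hK'0.le hI0]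
    · have htI := SM.wt_supp g hg1 hT0 t hz
      have hSi : |S.indicator (fun t => f.h 0 - pss f.h 2 x t) t| ≤ |f.h 0| + |pss f.h 2 x t| := by
        by_cases hS : t ∈ S
        · rw [indicator_of_mem hS]
          exact abs_sub _ _
        · rw [indicator_of_notMem hS, abs_zero]
          positivity
      by_cases htB : t ∈ B
      · rw [indicator_of_mem htB]
        have h8 : |Zc f.h K D x J t - S.indicator (fun t => f.h 0 - pss f.h 2 x t) t| ≤ K' * (1 + |pss f.h 2 x t|) := by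
          have h9 := hZ x hT K D (hD0.le.trans hD) J hcl t
          have h10 := abs_sub (Zc f.h K D x J t) (S.indicator (fun t => f.h 0 - pss f.h 2 x t) t)
          have h12 : Z + |f.h 0| + |pss f.h 2 x t| ≤ K' * (1 + |pss f.h 2 x t|) := by
            rw [hK']
            nlinarith [mul_nonneg hZ0.le hp0, mul_nonneg hf0 hp0]
          linarith
        have h13 : wt g.h x x t * (|F x t| * |Zc f.h K D x J t - S.indicator (fun t => f.h 0 - pss f.h 2 x t) t|) ≤
            wt g.h x x t * (|F x t| * (K' * (1 + |pss f.h 2 x t|))) := by gcongr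
        have h14 : wt g.h x x t * (|F x t| * (K' * (1 + |pss f.h 2 x t|))) =
            K' * (wt g.h x x t * (|F x t| * (1 + |pss f.h 2 x t|))) := by ring
        have h15 : 0 ≤ e * (wt g.h x x t * (|F x t| * (1 + |pss f.h 2 x t|))) := by positivity
        linarith
      · rw [indicator_of_notMem htB, mul_zero, add_zero]
        have h11 : |Zc f.h K D x J t - S.indicator (fun t => f.h 0 - pss f.h 2 x t) t| ≤ e := by
          have := hB t ⟨by linarith [htI.1], by linarith [htI.2]⟩ htB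
          rwa [← hSe] at this
        have h16 : e ≤ e * (1 + |pss f.h 2 x t|) := by nlinarith
        have h13 : wt g.h x x t * (|F x t| * |Zc f.h K D x J t - S.indicator (fun t => f.h 0 - pss f.h 2 x t) t|) ≤
            wt g.h x x t * (|F x t| * (e * (1 + |pss f.h 2 x t|))) := by
          gcongr
          linarith
        have h14 : wt g.h x x t * (|F x t| * (e * (1 + |pss f.h 2 x t|))) =
            e * (wt g.h x x t * (|F x t| * (1 + |pss f.h 2 x t|))) := by ring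
        linarith
  rw [← hSe, e0, ← integral_sub i2 i4, ← Real.norm_eq_abs]
  have j1 : Integrable (fun t => e * (wt g.h x x t * (|F x t| * (1 + |pss f.h 2 x t|)))) := i1.const_mul _
  have j2 : Integrable (fun t => K' * B.indicator (fun t => wt g.h x x t * (|F x t| * (1 + |pss f.h 2 x t|))) t) :=
    (i1.indicator hBm).const_mul _
  have hmain := norm_integral_le_of_norm_le (j1.add j2) (Eventually.of_forall hpt)
  refine hmain.trans ?_
  have e1 : ∫ t, (e * (wt g.h x x t * (|F x t| * (1 + |pss f.h 2 x t|))) +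
      K' * B.indicator (fun t => wt g.h x x t * (|F x t| * (1 + |pss f.h 2 x t|))) t) =
      e * (∫ t, wt g.h x x t * (|F x t| * (1 + |pss f.h 2 x t|))) +
      K' * ∫ t in B, wt g.h x x t * (|F x t| * (1 + |pss f.h 2 x t|)) := by
    rw [integral_add j1 j2, integral_const_mul, integral_const_mul, integral_indicator hBm]
  have e2 : (∫ t, ((fun t => e * (wt g.h x x t * (|F x t| * (1 + |pss f.h 2 x t|)))) +
      fun t => K' * B.indicator (fun t => wt g.h x x t * (|F x t| * (1 + |pss f.h 2 x t|))) t) t) =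
      e * (∫ t, wt g.h x x t * (|F x t| * (1 + |pss f.h 2 x t|))) +
      K' * ∫ t in B, wt g.h x x t * (|F x t| * (1 + |pss f.h 2 x t|)) := e1
  rw [e2]
  have k1 : e * (∫ t, wt g.h x x t * (|F x t| * (1 + |pss f.h 2 x t|))) ≤ e * (C * x) :=
    mul_le_mul_of_nonneg_left h1 he0.le
  have k2 : K' * (∫ t in B, wt g.h x x t * (|F x t| * (1 + |pss f.h 2 x t|))) ≤ K' * (ε / (2 * K') * x) :=
    mul_le_mul_of_nonneg_left hX hK'0.le
  have k3 : K' * (ε / (2 * K') * x) = ε / 2 * x := by field_simp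
  have k4 : e * (C * x) = ε / 2 * x := by rw [← he]; ring
  linarith

/-- Z2 -/
theorem part_cells {c : ℝ} (hc : 0 < c) (g f : TF) (hg : GoodG g) (F : ℝ → ℝ → ℝ) (hFc : ∀ x, Continuous (F x))
    (hFb : Crude F) (hui : UIW g (fun x t => |F x t| * (1 + |pss f.h 2 x t|)))
    (hwin : ∀ᶠ x : ℝ in atTop, ∀ γ : ℝ, ∫ t in (γ - SM.hw c x)..(γ + SM.hw c x), F x t = ∫ t, F x t * krs f.h 2 x (t - γ))
    (hZb : ∃ C : ℝ, 0 < C ∧ ∀ x : ℝ, 1 < x → ∀ K D : ℝ, 0 ≤ D → ∀ J : Finset ℕ,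
      Clear c K x J → ∀ t : ℝ, |Zc f.h K D x J t| ≤ C)
    (hdev : ∀ {η ε : ℝ}, 0 < η → 0 < ε → ∃ D0 : ℝ, 0 < D0 ∧ ∀ D : ℝ, D0 ≤ D →
      ∃ K0 : ℝ, ∀ K : ℝ, K0 ≤ K → ∀ᶠ x : ℝ in atTop, ∀ J : Finset ℕ, InW K x J → Clear c K x J →
      ∃ B : Set ℝ, MeasurableSet B ∧ volume B ≤ ENNReal.ofReal (η * x) ∧
        ∀ t ∈ Icc (x + x / 4) (x + 3 * x / 4), t ∉ B →
          |Zc f.h K D x J t - (St K 0 x J).indicator (fun t => f.h 0 - pss f.h 2 x t) t| ≤ ε)
    {ε : ℝ} (hε : 0 < ε) : ∃ D0 : ℝ, 0 < D0 ∧ ∀ D : ℝ, D0 ≤ D →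
    ∃ K0 : ℝ, ∀ K : ℝ, K0 ≤ K → ∀ᶠ x : ℝ in atTop, ∀ J : Finset ℕ, InW K x J → Clear c K x J →
      |(∑ ρ ∈ IS K D x J, ∫ t in ((ρ : ℂ).im - SM.hw c x)..((ρ : ℂ).im + SM.hw c x), F x t) -
        (f.h 0 * (∫ t in St K 0 x J, F x t) - ∫ t in St K 0 x J, F x t * pss f.h 2 x t)| ≤ ε * x := by
  obtain ⟨D0, hD0, h⟩ := transfer_cells hc g f hg F hFc hui hZb hdev (half_pos hε)
  refine ⟨D0, hD0, fun D hD => ?_⟩
  obtain ⟨K0, h⟩ := h D hD
  refine ⟨max K0 0, fun K hK => ?_⟩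
  have hKK : K0 ≤ K := (le_max_left _ _).trans hK
  have hK0 : 0 ≤ K := (le_max_right _ _).trans hK
  filter_upwards [h K hKK, swap_cells hc g f hg F hFc hFb (half_pos hε), hwin] with x h1 h2 h3 J hJ hcl
  have h4 := h1 J hJ hcl
  have h5 := h2 K D hK0 (hD0.le.trans hD) J hJ hcl
  have h6 : (∑ ρ ∈ IS K D x J, ∫ t in ((ρ : ℂ).im - SM.hw c x)..((ρ : ℂ).im + SM.hw c x), F x t) =
      ∑ ρ ∈ IS K D x J, ∫ t, F x t * krs f.h 2 x (t - (ρ : ℂ).im) :=
    Finset.sum_congr rfl fun ρ _ => h3 _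
  have i1 : IntegrableOn (F x) (St K 0 x J) := St_int (hFc x)
  have i2 : IntegrableOn (fun t => F x t * pss f.h 2 x t) (St K 0 x J) := St_int ((hFc x).mul (pss_cont f.h 2 x))
  have h7 : ∫ t in St K 0 x J, F x t * (f.h 0 - pss f.h 2 x t) =
      f.h 0 * (∫ t in St K 0 x J, F x t) - ∫ t in St K 0 x J, F x t * pss f.h 2 x t := by
    rw [← integral_const_mul, ← integral_sub (i1.const_mul _) i2]
    refine integral_congr_ae (Eventually.of_forall fun t => ?_)
    simp only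
    ring
  rw [h6, ← h7]
  have e1 := abs_le.mp h4
  have e2 := abs_le.mp h5
  rw [abs_le]
  constructor <;> linarith [e1.1, e1.2, e2.1, e2.2]

end Pool.Agent.Helper54.ES
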