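import Pool.Agent.Helper69.ES.DefsR
import Pool.Agent.Helper54.ES.Part

/-!
# ES with a rate, block Z2r
-/

open MeasureTheory Set Filter Topology
open Pool.Agent.Helper57.Zeta Pool.Agent.Helper57.PC Pool.Agent.Helper57.LH Pool.Agent.Helper78.SG
open Pool.Agent.Helper4.SH Pool.Agent.Helper69.PP Pool.Agent.Helper22.SI
open Pool.Agent.Helper69.SM (wt)
open scoped Interval

namespace Pool.Agent.Helper54.ES

open Pool.Agent.Helper69 Pool.Agent.Helper69.ES

theorem wt_int (g : TF) (hg : GoodG g) {x : ℝ} (hx : 0 < x) :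
    Integrable (fun t => wt g.h x x t) ∧ ∫ t, wt g.h x x t ≤ x := by
  have h1 : Integrable (fun t => wt g.h x x t * 1) :=
    SM.wt_mul_integrable g hg.1 hx (G := fun _ => (1 : ℝ)) continuous_const
  simp only [mul_one] at h1
  refine ⟨h1, ?_⟩
  have h2 : ∀ t, wt g.h x x t ≤ (Icc (x + x / 4) (x + 3 * x / 4)).indicator (fun _ => (1 : ℝ)) t := by
    intro t
    by_cases hz : wt g.h x x t = 0
    · rw [hz]
      exact indicator_nonneg (fun _ _ => zero_le_one) t
    · have ht := SM.wt_supp g hg.1 hx t hz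
      rw [indicator_of_mem (show t ∈ Icc (x + x / 4) (x + 3 * x / 4) from ⟨ht.1, ht.2⟩)]
      exact hg.2.2.1 _
  have h3 : Integrable ((Icc (x + x / 4) (x + 3 * x / 4)).indicator (fun _ : ℝ => (1 : ℝ))) := by
    rw [integrable_indicator_iff measurableSet_Icc]
    exact continuous_const.integrableOn_Icc
  refine (integral_mono h1 h3 h2).trans ?_
  rw [integral_indicator measurableSet_Icc, setIntegral_const, smul_eq_mul, mul_one, Measure.real,
    Real.volume_Icc, ENNReal.toReal_ofReal (by linarith)]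
  linarith

theorem le_of_sq {l h : ℝ} (hl : 0 < l) : h ≤ 1 / l + l * h ^ 2 := by
  have h1 : 0 ≤ l * (h - 1 / (2 * l)) ^ 2 := by positivity
  have h2 : l * (h - 1 / (2 * l)) ^ 2 = l * h ^ 2 - h + 1 / (4 * l) := by
    field_simp
    ring
  have h3 : 1 / (4 * l) ≤ 1 / l := one_div_le_one_div_of_le hl (by linarith)
  linarith

/-- the transfer, with a rate -/
theorem transfer_rate {c : ℝ} (g f : TF) (hg : GoodG g) (F : ℝ → ℝ → ℝ) (hFc : ∀ x, Continuous (F x))
    (hL : L2W g (fun x t => |F x t| * (1 + |pss f.h 2 x t|)))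
    (hZb : ∃ C : ℝ, 0 < C ∧ ∀ x : ℝ, 1 < x → ∀ K D : ℝ, 0 ≤ D → ∀ J : Finset ℕ,
      Clear c K x J → ∀ t : ℝ, |Zc f.h K D x J t| ≤ C)
    (hdev : ∃ C κ : ℝ, 0 < C ∧ 0 < κ ∧ ∀ K : ℝ, 1 ≤ K → ∀ᶠ x : ℝ in atTop,
      ∀ J : Finset ℕ, InW K x J → Clear c K x J →
      ∃ B : Set ℝ, MeasurableSet B ∧ volume B ≤ ENNReal.ofReal (C * K ^ (-κ) * x) ∧
        ∀ t ∈ Icc (x + x / 4) (x + 3 * x / 4), t ∉ B →
          |Zc f.h K (Real.sqrt K) x J t - (St K 0 x J).indicator (fun t => f.h 0 - pss f.h 2 x t) t| ≤ C * K ^ (-κ)) :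
    ∃ C κ : ℝ, 0 < C ∧ 0 < κ ∧ ∀ K : ℝ, 1 ≤ K → ∀ᶠ x : ℝ in atTop, ∀ J : Finset ℕ, InW K x J → Clear c K x J →
      |(∫ t, wt g.h x x t * (F x t * Zc f.h K (Real.sqrt K) x J t)) -
        ∫ t in St K 0 x J, F x t * (f.h 0 - pss f.h 2 x t)| ≤ C * K ^ (-κ) * x := by
  obtain ⟨C2, hC20, hC2⟩ := hL
  obtain ⟨Z, hZ0, hZ⟩ := hZb
  obtain ⟨C1, κ, hC10, hκ, h⟩ := hdev
  obtain ⟨K', hK'⟩ : ∃ K' : ℝ, K' = Z + |f.h 0| + 1 := ⟨_, rfl⟩
  have hf0 := abs_nonneg (f.h 0)
  have hK'0 : 0 < K' := by rw [hK']; positivity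
  refine ⟨C1 * (1 + C2) + K' * (C1 + C2), κ / 2, by positivity, by positivity, fun K hK => ?_⟩
  have hK0 : 0 < K := by linarith
  obtain ⟨e, he⟩ : ∃ e : ℝ, e = C1 * K ^ (-κ) := ⟨_, rfl⟩
  have he0 : 0 < e := by rw [he]; positivity
  obtain ⟨l, hl⟩ : ∃ l : ℝ, l = K ^ (-(κ / 2)) := ⟨_, rfl⟩
  have hl0 : 0 < l := by rw [hl]; positivity
  have hll : K ^ (-κ) = l * l := by
    rw [hl, ← Real.rpow_add hK0]
    congr 1
    ring
  have hl1 : l ≤ 1 := by
    rw [hl]
    exact Real.rpow_le_one_of_one_le_of_nonpos hK (by linarith)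
  filter_upwards [hC2, h K hK, eventually_gt_atTop 1] with x h1 h3 hT J hJ hcl
  have hT0 : 0 < x := by linarith
  obtain ⟨B, hBm, hBv, hB⟩ := h3 J hJ hcl
  rw [← he] at hB hBv
  have hg0 := hg.2.1
  have hg1 := hg.1
  obtain ⟨wi, wb⟩ := wt_int g hg hT0
  have hom0 : ∀ t, 0 ≤ wt g.h x x t := fun t => hg0 _
  have hom1 : ∀ t, wt g.h x x t ≤ 1 := fun t => hg.2.2.1 _
  have hpc := pss_cont f.h 2 x
  have hWc : Continuous (fun t => |F x t| * (1 + |pss f.h 2 x t|)) :=
    (hFc x).abs.mul (continuous_const.add hpc.abs)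
  obtain ⟨S, hSe⟩ : ∃ S : Set ℝ, S = St K 0 x J := ⟨_, rfl⟩
  have hSm : MeasurableSet S := by rw [hSe]; exact St_meas _ _ _ _
  have hSw : ∀ t ∈ S, wt g.h x x t = 1 := by
    intro t ht
    rw [hSe] at ht
    exact wt_one hg hT0 (St_sub hT hK0.le le_rfl hJ ht)
  have i1 : Integrable (fun t => wt g.h x x t * (|F x t| * (1 + |pss f.h 2 x t|))) := SM.wt_mul_integrable g hg1 hT0 hWc
  have i1s : Integrable (fun t => wt g.h x x t * (|F x t| * (1 + |pss f.h 2 x t|)) ^ 2) :=
    SM.wt_mul_integrable g hg1 hT0 (hWc.pow 2)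
  have i2 : Integrable (fun t => wt g.h x x t * (F x t * Zc f.h K (Real.sqrt K) x J t)) :=
    SM.wt_mul_integrable g hg1 hT0 ((hFc x).mul (Zc_cont f K (Real.sqrt K) x J))
  have i3 : Integrable (fun t => wt g.h x x t * (F x t * (f.h 0 - pss f.h 2 x t))) :=
    SM.wt_mul_integrable g hg1 hT0 ((hFc x).mul (continuous_const.sub hpc))
  have e0 : ∫ t in S, F x t * (f.h 0 - pss f.h 2 x t) =
      ∫ t, S.indicator (fun t => wt g.h x x t * (F x t * (f.h 0 - pss f.h 2 x t))) t := by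
    rw [integral_indicator hSm]
    refine setIntegral_congr_fun hSm fun t ht => ?_
    simp only [hSw t ht, one_mul]
  have i4 : Integrable (S.indicator (fun t => wt g.h x x t * (F x t * (f.h 0 - pss f.h 2 x t)))) := i3.indicator hSm
  have hpt : ∀ t, ‖wt g.h x x t * (F x t * Zc f.h K (Real.sqrt K) x J t) -
        S.indicator (fun t => wt g.h x x t * (F x t * (f.h 0 - pss f.h 2 x t))) t‖ ≤
      e * (wt g.h x x t * (|F x t| * (1 + |pss f.h 2 x t|))) +
      K' * B.indicator (fun t => wt g.h x x t * (|F x t| * (1 + |pss f.h 2 x t|))) t := by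
    intro t
    have h0 := hom0 t
    have hF0 := abs_nonneg (F x t)
    have hp0 := abs_nonneg (pss f.h 2 x t)
    have hW0 : 0 ≤ wt g.h x x t * (|F x t| * (1 + |pss f.h 2 x t|)) := by positivity
    have hI0 : 0 ≤ B.indicator (fun t => wt g.h x x t * (|F x t| * (1 + |pss f.h 2 x t|))) t :=
      indicator_nonneg (fun y _ => mul_nonneg (hom0 y) (by positivity)) t
    have e3 : wt g.h x x t * (F x t * Zc f.h K (Real.sqrt K) x J t) -
        S.indicator (fun t => wt g.h x x t * (F x t * (f.h 0 - pss f.h 2 x t))) t =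
        wt g.h x x t * (F x t * (Zc f.h K (Real.sqrt K) x J t - S.indicator (fun t => f.h 0 - pss f.h 2 x t) t)) := by
      by_cases hS : t ∈ S
      · rw [indicator_of_mem hS, indicator_of_mem hS]
        ring
      · rw [indicator_of_notMem hS, indicator_of_notMem hS]
        ring
    rw [e3, norm_mul, norm_mul, Real.norm_eq_abs, Real.norm_eq_abs, Real.norm_eq_abs, abs_of_nonneg h0]
    by_cases hz : wt g.h x x t = 0
    · rw [hz, zero_mul]
      rw [hz] at hW0
      have h5 : 0 ≤ e * (0 * (|F x t| * (1 + |pss f.h 2 x t|))) := by rw [zero_mul, mul_zero]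
      nlinarith [mul_nonneg hK'0.le hI0]
    · have htI := SM.wt_supp g hg1 hT0 t hz
      have hSi : |S.indicator (fun t => f.h 0 - pss f.h 2 x t) t| ≤ |f.h 0| + |pss f.h 2 x t| := by
        by_cases hS : t ∈ S
        · rw [indicator_of_mem hS]
          exact abs_sub _ _
        · rw [indicator_of_notMem hS, abs_zero]
          positivity
      by_cases htB : t ∈ B
      · rw [indicator_of_mem htB]
        have h8 : |Zc f.h K (Real.sqrt K) x J t - S.indicator (fun t => f.h 0 - pss f.h 2 x t) t| ≤ K' * (1 + |pss f.h 2 x t|) := by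
          have h9 := hZ x hT K (Real.sqrt K) (Real.sqrt_nonneg K) J hcl t
          have h10 := abs_sub (Zc f.h K (Real.sqrt K) x J t) (S.indicator (fun t => f.h 0 - pss f.h 2 x t) t)
          have h12 : Z + |f.h 0| + |pss f.h 2 x t| ≤ K' * (1 + |pss f.h 2 x t|) := by
            rw [hK']
            nlinarith [mul_nonneg hZ0.le hp0, mul_nonneg hf0 hp0]
          linarith
        have h13 : wt g.h x x t * (|F x t| * |Zc f.h K (Real.sqrt K) x J t - S.indicator (fun t => f.h 0 - pss f.h 2 x t) t|) ≤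
            wt g.h x x t * (|F x t| * (K' * (1 + |pss f.h 2 x t|))) := by gcongr
        have h14 : wt g.h x x t * (|F x t| * (K' * (1 + |pss f.h 2 x t|))) =
            K' * (wt g.h x x t * (|F x t| * (1 + |pss f.h 2 x t|))) := by ring
        have h15 : 0 ≤ e * (wt g.h x x t * (|F x t| * (1 + |pss f.h 2 x t|))) := by positivity
        linarith
      · rw [indicator_of_notMem htB, mul_zero, add_zero]
        have h11 : |Zc f.h K (Real.sqrt K) x J t - S.indicator (fun t => f.h 0 - pss f.h 2 x t) t| ≤ e := by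
          have := hB t ⟨by linarith [htI.1], by linarith [htI.2]⟩ htB
          rwa [← hSe] at this
        have h16 : e ≤ e * (1 + |pss f.h 2 x t|) := by nlinarith
        have h13 : wt g.h x x t * (|F x t| * |Zc f.h K (Real.sqrt K) x J t - S.indicator (fun t => f.h 0 - pss f.h 2 x t) t|) ≤
            wt g.h x x t * (|F x t| * (e * (1 + |pss f.h 2 x t|))) := by
          gcongr
          linarith
        have h14 : wt g.h x x t * (|F x t| * (e * (1 + |pss f.h 2 x t|))) =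
            e * (wt g.h x x t * (|F x t| * (1 + |pss f.h 2 x t|))) := by ring
        linarith
  rw [← hSe, e0, ← integral_sub i2 i4, ← Real.norm_eq_abs]
  have j1 : Integrable (fun t => e * (wt g.h x x t * (|F x t| * (1 + |pss f.h 2 x t|)))) := i1.const_mul _
  have j2 : Integrable (fun t => K' * B.indicator (fun t => wt g.h x x t * (|F x t| * (1 + |pss f.h 2 x t|))) t) :=
    (i1.indicator hBm).const_mul _
  have hmain := norm_integral_le_of_norm_le (j1.add j2) (Eventually.of_forall hpt)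
  refine hmain.trans ?_
  have e1 : ∫ t, (e * (wt g.h x x t * (|F x t| * (1 + |pss f.h 2 x t|))) +
      K' * B.indicator (fun t => wt g.h x x t * (|F x t| * (1 + |pss f.h 2 x t|))) t) =
      e * (∫ t, wt g.h x x t * (|F x t| * (1 + |pss f.h 2 x t|))) +
      K' * ∫ t in B, wt g.h x x t * (|F x t| * (1 + |pss f.h 2 x t|)) := by
    rw [integral_add j1 j2, integral_const_mul, integral_const_mul, integral_indicator hBm]
  have e2 : (∫ t, ((fun t => e * (wt g.h x x t * (|F x t| * (1 + |pss f.h 2 x t|)))) +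
      fun t => K' * B.indicator (fun t => wt g.h x x t * (|F x t| * (1 + |pss f.h 2 x t|))) t) t) =
      e * (∫ t, wt g.h x x t * (|F x t| * (1 + |pss f.h 2 x t|))) +
      K' * ∫ t in B, wt g.h x x t * (|F x t| * (1 + |pss f.h 2 x t|)) := e1
  rw [e2]
  -- the total integral
  have h4 : ∫ t, wt g.h x x t * (|F x t| * (1 + |pss f.h 2 x t|)) ≤ x + C2 * x := by
    calc ∫ t, wt g.h x x t * (|F x t| * (1 + |pss f.h 2 x t|))
        ≤ ∫ t, (wt g.h x x t + wt g.h x x t * (|F x t| * (1 + |pss f.h 2 x t|)) ^ 2) := by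
          refine integral_mono i1 (wi.add i1s) fun t => ?_
          have h5 := le_of_sq (h := |F x t| * (1 + |pss f.h 2 x t|)) one_pos
          have h6 := mul_le_mul_of_nonneg_left h5 (hom0 t)
          simp only [div_one, one_mul] at h6
          linarith
      _ = (∫ t, wt g.h x x t) + ∫ t, wt g.h x x t * (|F x t| * (1 + |pss f.h 2 x t|)) ^ 2 :=
          integral_add wi i1s
      _ ≤ x + C2 * x := add_le_add wb h1
  -- the integral over the bad set
  have hBfin : volume B ≠ ⊤ := ne_top_of_le_ne_top ENNReal.ofReal_ne_top hBv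
  have hBr : (volume B).toReal ≤ e * x := by
    refine (ENNReal.toReal_mono ENNReal.ofReal_ne_top hBv).trans ?_
    rw [ENNReal.toReal_ofReal (by positivity)]
  have h5 : ∫ t in B, wt g.h x x t * (|F x t| * (1 + |pss f.h 2 x t|)) ≤ (C1 + C2) * l * x := by
    have k1 : IntegrableOn (fun _ : ℝ => 1 / l) B := integrableOn_const hBfin
    have k2 : Integrable (fun t => l * (wt g.h x x t * (|F x t| * (1 + |pss f.h 2 x t|)) ^ 2)) := i1s.const_mul l
    calc ∫ t in B, wt g.h x x t * (|F x t| * (1 + |pss f.h 2 x t|))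
        ≤ ∫ t in B, (1 / l + l * (wt g.h x x t * (|F x t| * (1 + |pss f.h 2 x t|)) ^ 2)) := by
          refine integral_mono i1.integrableOn (k1.add k2.integrableOn) fun t => ?_
          have h5 := le_of_sq (h := |F x t| * (1 + |pss f.h 2 x t|)) hl0
          have h6 := mul_le_mul_of_nonneg_left h5 (hom0 t)
          have h7 : wt g.h x x t * (1 / l) ≤ 1 / l := mul_le_of_le_one_left (by positivity) (hom1 t)
          simp only
          calc wt g.h x x t * (|F x t| * (1 + |pss f.h 2 x t|))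
              ≤ wt g.h x x t * (1 / l + l * (|F x t| * (1 + |pss f.h 2 x t|)) ^ 2) := h6
            _ = wt g.h x x t * (1 / l) + l * (wt g.h x x t * (|F x t| * (1 + |pss f.h 2 x t|)) ^ 2) := by ring
            _ ≤ _ := by linarith
      _ = (∫ _t in B, (1 / l : ℝ)) + ∫ t in B, l * (wt g.h x x t * (|F x t| * (1 + |pss f.h 2 x t|)) ^ 2) :=
          integral_add k1 k2.integrableOn
      _ ≤ (e * x) * (1 / l) + l * (C2 * x) := by
          refine add_le_add ?_ ?_
          · rw [setIntegral_const, smul_eq_mul, Measure.real]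
            exact mul_le_mul_of_nonneg_right hBr (by positivity)
          · rw [integral_const_mul]
            refine mul_le_mul_of_nonneg_left (le_trans ?_ h1) hl0.le
            refine setIntegral_le_integral i1s (Eventually.of_forall fun t => ?_)
            have := hom0 t
            simp only [Pi.zero_apply]
            positivity
      _ = (C1 + C2) * l * x := by
          rw [he, hll]
          field_simp
  have k1 : e * (∫ t, wt g.h x x t * (|F x t| * (1 + |pss f.h 2 x t|))) ≤ C1 * (1 + C2) * l * x := by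
    calc e * (∫ t, wt g.h x x t * (|F x t| * (1 + |pss f.h 2 x t|))) ≤ e * (x + C2 * x) :=
          mul_le_mul_of_nonneg_left h4 he0.le
      _ = C1 * (1 + C2) * (l * l) * x := by rw [he, hll]; ring
      _ ≤ C1 * (1 + C2) * (l * 1) * x := by gcongr
      _ = _ := by ring
  have k2 : K' * (∫ t in B, wt g.h x x t * (|F x t| * (1 + |pss f.h 2 x t|))) ≤ K' * ((C1 + C2) * l * x) :=
    mul_le_mul_of_nonneg_left h5 hK'0.le
  rw [← hl]
  calc _ ≤ C1 * (1 + C2) * l * x + K' * ((C1 + C2) * l * x) := add_le_add k1 k2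
    _ = _ := by ring

/-- Z2r -/
theorem part_rate {c : ℝ} (hc : 0 < c) (g f : TF) (hg : GoodG g) (F : ℝ → ℝ → ℝ) (hFc : ∀ x, Continuous (F x))
    (hFb : Crude F) (hL : L2W g (fun x t => |F x t| * (1 + |pss f.h 2 x t|)))
    (hwin : ∀ᶠ x : ℝ in atTop, ∀ γ : ℝ, ∫ t in (γ - SM.hw c x)..(γ + SM.hw c x), F x t = ∫ t, F x t * krs f.h 2 x (t - γ))
    (hZb : ∃ C : ℝ, 0 < C ∧ ∀ x : ℝ, 1 < x → ∀ K D : ℝ, 0 ≤ D → ∀ J : Finset ℕ,
      Clear c K x J → ∀ t : ℝ, |Zc f.h K D x J t| ≤ C)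
    (hdev : ∃ C κ : ℝ, 0 < C ∧ 0 < κ ∧ ∀ K : ℝ, 1 ≤ K → ∀ᶠ x : ℝ in atTop,
      ∀ J : Finset ℕ, InW K x J → Clear c K x J →
      ∃ B : Set ℝ, MeasurableSet B ∧ volume B ≤ ENNReal.ofReal (C * K ^ (-κ) * x) ∧
        ∀ t ∈ Icc (x + x / 4) (x + 3 * x / 4), t ∉ B →
          |Zc f.h K (Real.sqrt K) x J t - (St K 0 x J).indicator (fun t => f.h 0 - pss f.h 2 x t) t| ≤ C * K ^ (-κ)) :
    ∃ C κ : ℝ, 0 < C ∧ 0 < κ ∧ ∀ K : ℝ, 1 ≤ K → ∀ᶠ x : ℝ in atTop, ∀ J : Finset ℕ, InW K x J → Clear c K x J →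
      |(∑ ρ ∈ IS K (Real.sqrt K) x J, ∫ t in ((ρ : ℂ).im - SM.hw c x)..((ρ : ℂ).im + SM.hw c x), F x t) -
        (f.h 0 * (∫ t in St K 0 x J, F x t) - ∫ t in St K 0 x J, F x t * pss f.h 2 x t)| ≤ C * K ^ (-κ) * x := by
  obtain ⟨C, κ, hC, hκ, h⟩ := transfer_rate g f hg F hFc hL hZb hdev
  refine ⟨C + 1, κ, by positivity, hκ, fun K hK => ?_⟩
  have hK0 : 0 < K := by linarith
  have hKκ : 0 < K ^ (-κ) := Real.rpow_pos_of_pos hK0 _
  filter_upwards [h K hK, swap_cells hc g f hg F hFc hFb hKκ, hwin] with x h1 h2 h3 J hJ hcl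
  have h4 := h1 J hJ hcl
  have h5 := h2 K (Real.sqrt K) hK0.le (Real.sqrt_nonneg K) J hJ hcl
  have h6 : (∑ ρ ∈ IS K (Real.sqrt K) x J, ∫ t in ((ρ : ℂ).im - SM.hw c x)..((ρ : ℂ).im + SM.hw c x), F x t) =
      ∑ ρ ∈ IS K (Real.sqrt K) x J, ∫ t, F x t * krs f.h 2 x (t - (ρ : ℂ).im) :=
    Finset.sum_congr rfl fun ρ _ => h3 _
  have i1 : IntegrableOn (F x) (St K 0 x J) := St_int (hFc x)
  have i2 : IntegrableOn (fun t => F x t * pss f.h 2 x t) (St K 0 x J) := St_int ((hFc x).mul (pss_cont f.h 2 x))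
  have h7 : ∫ t in St K 0 x J, F x t * (f.h 0 - pss f.h 2 x t) =
      f.h 0 * (∫ t in St K 0 x J, F x t) - ∫ t in St K 0 x J, F x t * pss f.h 2 x t := by
    rw [← integral_const_mul, ← integral_sub (i1.const_mul _) i2]
    refine integral_congr_ae (Eventually.of_forall fun t => ?_)
    simp only
    ring
  rw [h6, ← h7]
  have e1 := abs_le.mp h4
  have e2 := abs_le.mp h5
  have e3 : (C + 1) * K ^ (-κ) * x = C * K ^ (-κ) * x + K ^ (-κ) * x := by ring
  rw [abs_le, e3]
  constructor <;> linarith [e1.1, e1.2, e2.1, e2.2]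

end Pool.Agent.Helper54.ES
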